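import Pool.Agent.Q283.FT.Stm3

/-!
# Project FT (helper283), job KUB: the class of a sum of two points
-/

set_option autoImplicit false

namespace Pool.Agent.Q64.FT

open WeierstrassCurve
open Pool.Agent.Q283.FT
open Pool.Agent.TH841.SH (IsR)
open Pool.Agent.TH841.SH.D (Pt)

section

variable {K : Type*} [Field K] {W : WeierstrassCurve K} {r s t : K}

open Classical in
/-- the class of a point at the root `r` -/
noncomputable def kp (W : WeierstrassCurve K) (r s t : K) : W.toAffine.Point → K
  | 0 => 1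
  | .some u _ _ => if u = r then (r - s) * (r - t) else u - r

lemma kp_zero : kp W r s t 0 = 1 := rfl

lemma kp_eq {v : K} (h : W.toAffine.Nonsingular r v) :
    kp W r s t (.some r v h) = (r - s) * (r - t) := if_pos rfl

lemma kp_of {u v : K} (h : W.toAffine.Nonsingular u v) (hu : u ≠ r) :
    kp W r s t (.some u v h) = u - r := if_neg hu

lemma kp_ne (hs : r ≠ s) (ht : r ≠ t) (P : W.toAffine.Point) : kp W r s t P ≠ 0 := by
  rcases P with _ | ⟨u, v, h⟩
  · exact one_ne_zero
  · by_cases hu : u = r
    · subst hu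
      rw [kp_eq]
      exact mul_ne_zero (sub_ne_zero.2 hs) (sub_ne_zero.2 ht)
    · rw [kp_of h hu]
      exact sub_ne_zero.2 hu

lemma kp_neg (P : W.toAffine.Point) : kp W r s t (-P) = kp W r s t P := by
  rcases P with _ | ⟨u, v, h⟩
  · rfl
  · rfl

lemma ord_zero (h : IsR W r s t) {v : K} (hn : W.toAffine.Nonsingular r v) : v = 0 := by
  have he := (h.eqn r v).1 hn.1
  rw [sub_self, zero_mul, zero_mul] at he
  exact pow_eq_zero_iff two_ne_zero |>.1 he

variable [DecidableEq K]

lemma kp_tadd (h : IsR W r s t) (hs : r ≠ s) (ht : r ≠ t) (hT : W.toAffine.Nonsingular r 0)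
    (Q : W.toAffine.Point) :
    IsSquare (kp W r s t (.some r 0 hT) * kp W r s t Q * kp W r s t (.some r 0 hT + Q)) := by
  rcases Q with _ | ⟨u, v, hn⟩
  · have e1 : (.some r 0 hT + Affine.Point.zero : W.toAffine.Point) = .some r 0 hT := add_zero _
    rw [e1]
    have e2 : kp W r s t (Affine.Point.zero : W.toAffine.Point) = 1 := rfl
    rw [e2, mul_one]
    exact ⟨_, rfl⟩
  · by_cases hu : u = r
    · subst hu
      obtain rfl := ord_zero h hn
      have e1 : (.some u 0 hT + .some u 0 hn : W.toAffine.Point) = 0 :=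
        Affine.Point.add_self_of_Y_eq (by rw [h.negY, neg_zero])
      rw [e1, kp_zero, mul_one]
      exact ⟨_, rfl⟩
    · have hX : r ≠ u := Ne.symm hu
      have hur : u - r ≠ 0 := sub_ne_zero.2 hu
      have hru : r - u ≠ 0 := sub_ne_zero.2 hX
      have he := (h.eqn u v).1 hn.1
      rw [Affine.Point.add_of_X_ne hX, kp_eq, kp_of hn hu]
      have hXr : W.toAffine.addX r u (W.toAffine.slope r u 0 v) - r =
          (r - s) * (r - t) / (u - r) := by
        rw [Affine.slope_of_X_ne hX]
        show ((0 - v) / (r - u)) ^ 2 + W.a₁ * ((0 - v) / (r - u)) - W.a₂ - r - u - r = _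
        rw [h.h1, h.h2, zero_mul, add_zero, zero_sub, div_pow, neg_sq, he]
        have e3 : (r - u) ^ 2 = (u - r) ^ 2 := by ring
        rw [e3]
        field_simp
        ring
      have hXne : W.toAffine.addX r u (W.toAffine.slope r u 0 v) ≠ r := by
        rw [← sub_ne_zero, hXr]
        exact div_ne_zero (mul_ne_zero (sub_ne_zero.2 hs) (sub_ne_zero.2 ht)) hur
      rw [kp_of _ hXne, hXr]
      refine ⟨(r - s) * (r - t), ?_⟩
      field_simp

/-- the line through the two points -/
lemma line (h : IsR W r s t) {u v u' v' : K} (hn : W.toAffine.Nonsingular u v)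
    (hn' : W.toAffine.Nonsingular u' v') (hxy : ¬ (u = u' ∧ v = W.toAffine.negY u' v')) :
    (u - r) * (u' - r) * (W.toAffine.addX u u' (W.toAffine.slope u u' v v') - r) =
      (W.toAffine.slope u u' v v' * (r - u) + v) ^ 2 := by
  have h1 := congrArg (Polynomial.eval r) (Affine.addPolynomial_slope hn.1 hn'.1 hxy)
  rw [Affine.addPolynomial_eq] at h1
  simp only [Cubic.toPoly, Polynomial.eval_neg, Polynomial.eval_add, Polynomial.eval_mul,
    Polynomial.eval_C, Polynomial.eval_pow, Polynomial.eval_X, Polynomial.eval_sub] at h1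
  rw [h.h1, h.h2, h.h3, h.h4, h.h6] at h1
  linear_combination -h1

lemma kp_add (h : IsR W r s t) (hs : r ≠ s) (ht : r ≠ t) (P Q : W.toAffine.Point) :
    IsSquare (kp W r s t P * kp W r s t Q * kp W r s t (P + Q)) := by
  rcases P with _ | ⟨u, v, hn⟩
  · have e1 : (Affine.Point.zero + Q : W.toAffine.Point) = Q := zero_add _
    have e2 : kp W r s t (Affine.Point.zero : W.toAffine.Point) = 1 := rfl
    rw [e1, e2, one_mul]
    exact ⟨_, rfl⟩
  rcases Q with _ | ⟨u', v', hn'⟩
  · have e1 : (.some u v hn + Affine.Point.zero : W.toAffine.Point) = .some u v hn := add_zero _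
    have e2 : kp W r s t (Affine.Point.zero : W.toAffine.Point) = 1 := rfl
    rw [e1, e2, mul_one]
    exact ⟨_, rfl⟩
  by_cases hu : u = r
  · subst hu
    obtain rfl := ord_zero h hn
    exact kp_tadd h hs ht hn _
  by_cases hu' : u' = r
  · subst hu'
    obtain rfl := ord_zero h hn'
    have h1 := kp_tadd h hs ht hn' (.some u v hn)
    rw [add_comm, mul_comm (kp W u' s t (.some u v hn))]
    exact h1
  by_cases hxy : u = u' ∧ v = W.toAffine.negY u' v'
  · rw [Affine.Point.add_of_Y_eq hxy.1 hxy.2, kp_of hn hu, kp_of hn' hu', kp_zero, mul_one,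
      hxy.1]
    exact ⟨_, rfl⟩
  have key := line h hn hn' hxy
  by_cases hXr : W.toAffine.addX u u' (W.toAffine.slope u u' v v') = r
  · have h3 : ∃ hT : W.toAffine.Nonsingular r 0,
        (.some u v hn + .some u' v' hn' : W.toAffine.Point) = .some r 0 hT := by
      rw [Affine.Point.add_some hxy]
      generalize_proofs hp
      revert hp
      rw [hXr]
      intro hp
      have h0 := ord_zero h hp
      revert hp
      rw [h0]
      intro hp
      exact ⟨hp, rfl⟩
    obtain ⟨hT, hT'⟩ := h3
    have h4 := kp_tadd h hs ht hT (-.some u v hn)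
    have h5 : (.some r 0 hT + -.some u v hn : W.toAffine.Point) = .some u' v' hn' := by
      rw [← hT', add_comm, neg_add_cancel_left]
    rw [h5, kp_neg] at h4
    rw [hT']
    obtain ⟨z, hz⟩ := h4
    exact ⟨z, by rw [← hz]; ring⟩
  · rw [Affine.Point.add_some hxy, kp_of hn hu, kp_of hn' hu', kp_of _ hXr, key]
    exact ⟨_, sq _⟩

end

section

variable {F : Type} [Field F]

theorem isR_base {e : Fin 3 → F} (he : Rt e) (L : Type) [Field L] [Algebra F L] :
    IsR ((crv e).baseChange L) (algebraMap F L (e 0)) (algebraMap F L (e 1))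
      (algebraMap F L (e 2)) where
  h1 := map_zero (algebraMap F L)
  h2 := by
    have h1 : ((crv e).baseChange L).a₂ = 0 := map_zero (algebraMap F L)
    rw [h1, ← map_add, ← map_add, he.sum, map_zero, neg_zero]
  h3 := map_zero (algebraMap F L)
  h4 := by
    have h1 : ((crv e).baseChange L).a₄ = algebraMap F L (e 0 * e 1 + e 0 * e 2 + e 1 * e 2) := rfl
    rw [h1, map_add, map_add, map_mul, map_mul, map_mul]
  h6 := by
    have h1 : ((crv e).baseChange L).a₆ = algebraMap F L (-(e 0 * e 1 * e 2)) := rfl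
    rw [h1, map_neg, map_mul, map_mul]

/-- the class of a point at `e 0` -/
noncomputable def k0 (e : Fin 3 → F) (L : Type) [Field L] [Algebra F L] (P : Pt (crv e) L) : L :=
  @kp L _ ((crv e).baseChange L) (algebraMap F L (e 0)) (algebraMap F L (e 1))
    (algebraMap F L (e 2)) P

/-- the class of a point at `e 1` -/
noncomputable def k1 (e : Fin 3 → F) (L : Type) [Field L] [Algebra F L] (P : Pt (crv e) L) : L :=
  @kp L _ ((crv e).baseChange L) (algebraMap F L (e 1)) (algebraMap F L (e 0))
    (algebraMap F L (e 2)) P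

variable {e : Fin 3 → F} {L : Type} [Field L] [Algebra F L]

lemma ne_map (he : Rt e) {i j : Fin 3} (h : i ≠ j) : algebraMap F L (e i) ≠ algebraMap F L (e j) :=
  fun h0 => h (he.inj ((algebraMap F L).injective h0))

lemma k0_ne (he : Rt e) (P : Pt (crv e) L) : k0 e L P ≠ 0 :=
  kp_ne (ne_map he (by decide)) (ne_map he (by decide)) P

lemma k1_ne (he : Rt e) (P : Pt (crv e) L) : k1 e L P ≠ 0 :=
  kp_ne (ne_map he (by decide)) (ne_map he (by decide)) P

lemma k0_add (he : Rt e) (P Q : Pt (crv e) L) : IsSquare (k0 e L P * k0 e L Q * k0 e L (P + Q)) :=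
  @kp_add L _ ((crv e).baseChange L) _ _ _ (Classical.decEq L) (isR_base he L)
    (ne_map he (by decide)) (ne_map he (by decide)) P Q

lemma k1_add (he : Rt e) (P Q : Pt (crv e) L) : IsSquare (k1 e L P * k1 e L Q * k1 e L (P + Q)) :=
  @kp_add L _ ((crv e).baseChange L) _ _ _ (Classical.decEq L) (isR_base he L).swap
    (ne_map he (by decide)) (ne_map he (by decide)) P Q

lemma sq_neg {i : F} (hi : i ^ 2 = -1) (x : L) : IsSquare (-x) ↔ IsSquare x := by
  have h1 : (algebraMap F L i) ^ 2 = -1 := by rw [← map_pow, hi, map_neg, map_one]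
  constructor
  · rintro ⟨z, hz⟩
    exact ⟨algebraMap F L i * z, by linear_combination -hz - z * z * h1⟩
  · rintro ⟨z, hz⟩
    exact ⟨algebraMap F L i * z, by linear_combination -hz - z * z * h1⟩

/-- the class of a point -/
theorem cx_iff {i : F} (hi : i ^ 2 = -1) (P : Pt (crv e) L) (a b : L) :
    Cx e L P a b ↔ a ≠ 0 ∧ b ≠ 0 ∧ IsSquare (a * k0 e L P) ∧ IsSquare (b * k1 e L P) := by
  have h01 : algebraMap F L (df e 1 * df e 2) =
      (algebraMap F L (e 0) - algebraMap F L (e 1)) * (algebraMap F L (e 0) - algebraMap F L (e 2)) := by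
    simp only [df, Fin.isValue, Fin.reduceEq, if_false, if_true, map_mul, map_sub]
    ring
  have h02 : algebraMap F L (df e 0 * df e 2) =
      -((algebraMap F L (e 1) - algebraMap F L (e 0)) * (algebraMap F L (e 1) - algebraMap F L (e 2))) := by
    simp only [df, Fin.isValue, Fin.reduceEq, if_false, if_true, map_mul, map_sub]
    ring
  refine and_congr_right fun _ => and_congr_right fun _ => ?_
  rw [h01, h02]
  rcases P with _ | ⟨x, y, h⟩
  · have e0 : k0 e L (Affine.Point.zero : Pt (crv e) L) = 1 := rfl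
    have e1 : k1 e L (Affine.Point.zero : Pt (crv e) L) = 1 := rfl
    rw [e0, e1, mul_one, mul_one]
    constructor
    · rintro (⟨_, ha, hb⟩ | ⟨x, y, h, hP, _⟩)
      · exact ⟨ha, hb⟩
      · exact absurd hP.symm (Affine.Point.some_ne_zero _)
    · rintro ⟨ha, hb⟩
      exact Or.inl ⟨rfl, ha, hb⟩
  · have A0 : ((x ≠ algebraMap F L (e 0) ∧ IsSquare (a * (x - algebraMap F L (e 0)))) ∨
        (x = algebraMap F L (e 0) ∧ IsSquare (a *
          ((algebraMap F L (e 0) - algebraMap F L (e 1)) *
            (algebraMap F L (e 0) - algebraMap F L (e 2)))))) ↔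
        IsSquare (a * k0 e L (Affine.Point.some x y h : Pt (crv e) L)) := by
      by_cases hx : x = algebraMap F L (e 0)
      · subst hx
        have e0 : k0 e L (Affine.Point.some (algebraMap F L (e 0)) y h : Pt (crv e) L) = _ := kp_eq h
        rw [e0]
        constructor
        · rintro (h1 | h1)
          · exact absurd rfl h1.1
          · exact h1.2
        · intro h1
          exact Or.inr ⟨rfl, h1⟩
      · have e0 : k0 e L (Affine.Point.some x y h : Pt (crv e) L) = _ := kp_of h hx
        rw [e0]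
        constructor
        · rintro (h1 | h1)
          · exact h1.2
          · exact absurd h1.1 hx
        · intro h1
          exact Or.inl ⟨hx, h1⟩
    have A1 : ((x ≠ algebraMap F L (e 1) ∧ IsSquare (b * (x - algebraMap F L (e 1)))) ∨
        (x = algebraMap F L (e 1) ∧ IsSquare (b *
          (-((algebraMap F L (e 1) - algebraMap F L (e 0)) *
            (algebraMap F L (e 1) - algebraMap F L (e 2))))))) ↔
        IsSquare (b * k1 e L (Affine.Point.some x y h : Pt (crv e) L)) := by
      by_cases hx : x = algebraMap F L (e 1)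
      · subst hx
        have e0 : k1 e L (Affine.Point.some (algebraMap F L (e 1)) y h : Pt (crv e) L) = _ := kp_eq h
        rw [e0, mul_neg, sq_neg hi]
        constructor
        · rintro (h1 | h1)
          · exact absurd rfl h1.1
          · exact h1.2
        · intro h1
          exact Or.inr ⟨rfl, h1⟩
      · have e0 : k1 e L (Affine.Point.some x y h : Pt (crv e) L) = _ := kp_of h hx
        rw [e0]
        constructor
        · rintro (h1 | h1)
          · exact h1.2
          · exact absurd h1.1 hx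
        · intro h1
          exact Or.inl ⟨hx, h1⟩
    rw [← A0, ← A1]
    constructor
    · rintro (⟨hP, _⟩ | ⟨x', y', h', hP, h1, h2⟩)
      · exact absurd hP (Affine.Point.some_ne_zero _)
      · obtain ⟨rfl, rfl⟩ := Affine.Point.some.inj hP
        exact ⟨h1, h2⟩
    · rintro ⟨h1, h2⟩
      exact Or.inr ⟨x, y, h, rfl, h1, h2⟩

lemma sq_comb {a a' k k' m : L} (hk : k ≠ 0) (hk' : k' ≠ 0) (h1 : IsSquare (a * k))
    (h2 : IsSquare (a' * k')) (h3 : IsSquare (k * k' * m)) : IsSquare (a * a' * m) := by
  obtain ⟨x, hx⟩ := h1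
  obtain ⟨y, hy⟩ := h2
  obtain ⟨z, hz⟩ := h3
  refine ⟨x * y * z / (k * k'), ?_⟩
  have h4 : a * a' * m * (k * k') ^ 2 = (x * y * z) ^ 2 := by
    calc a * a' * m * (k * k') ^ 2 = (a * k) * (a' * k') * (k * k' * m) := by ring
      _ = (x * y * z) ^ 2 := by rw [hx, hy, hz]; ring
  have h5 : (k * k') ^ 2 ≠ 0 := pow_ne_zero 2 (mul_ne_zero hk hk')
  rw [div_mul_div_comm, eq_div_iff (by rw [← sq]; exact h5)]
  linear_combination h4

end

/-- JOB KUB -/
theorem kub (_hKUA : S_KUA) : S_KUB := by
  intro F _ _ i hi e he L _ _ P Q a b a' b' h1 h2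
  rw [cx_iff hi] at h1 h2 ⊢
  obtain ⟨ha, hb, h3, h4⟩ := h1
  obtain ⟨ha', hb', h5, h6⟩ := h2
  exact ⟨mul_ne_zero ha ha', mul_ne_zero hb hb',
    sq_comb (k0_ne he P) (k0_ne he Q) h3 h5 (k0_add he P Q),
    sq_comb (k1_ne he P) (k1_ne he Q) h4 h6 (k1_add he P Q)⟩

end Pool.Agent.Q64.FT
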